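import Mathlib
import Pool.Agent.D0H61.CP.Stm

/-!
# Two primes, one real parameter, two different powers: statements

`GP`: for almost every `α > 0` there are infinitely many primes `q` such that `⌊γ₁ α ^ κ₁ q ^ h⌋ + a` and
`⌊γ₂ α ^ κ₂ q ^ k⌋ + b` are primes, `h > k ≥ 1` (e.g. `⌊q ^ 3 / d⌋` and `⌊q ^ 2 / d⌋` for almost every real `d`).
Variant of `CP` (file `Pool.Agent.D0H61.CP.Stm`) with the two scales `M ^ h` and `M ^ k`.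
-/

set_option autoImplicit false

namespace Pool.Agent.D0H61.GP

open Filter Topology MeasureTheory Finset Pool.Agent.D0H61.CC Pool.Agent.D0H61.CP

open Classical in
/-- the number of the `q ∈ G` such that `⌊α q ^ h⌋ + a` and `⌊γ α ^ κ q ^ k⌋ + b` are primes -/
noncomputable def Md (h k : ℕ) (κ γ : ℝ) (a b : ℤ) (G : Finset ℕ) (α : ℝ) : ℕ :=
  (G.filter fun q : ℕ => PP (⌊α * (q : ℝ) ^ h⌋ + a) ∧ PP (⌊γ * α ^ κ * (q : ℝ) ^ k⌋ + b)).card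

open Classical in
/-- the pairs `(q, p)`, `q ∈ G`, `p` a prime in `(y₁, y₂]`, such that for some prime `r`
`|φ + κ log p + (k - κ h) log q - log r| ≤ δ / M ^ k` -/
noncomputable def prsH (h k : ℕ) (κ φ δ y₁ y₂ : ℝ) (M : ℕ) (G : Finset ℕ) : Finset (ℕ × ℕ) :=
  (G ×ˢ prs y₁ y₂).filter fun x => ∃ r : ℕ, r.Prime ∧
    |φ + κ * Real.log x.2 + (k - κ * h) * Real.log x.1 - Real.log r| ≤ δ / (M : ℝ) ^ k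

/-- **CNT3** (from TRI, MS, ZP). As CNT2 (`Pool.Agent.D0H61.CP.S_CNT2`) with `l = M ^ k / δ`,
`W = ∑ q p r, log q * log p * log r * tri (l (φ + κ log p + (k - κ h) log q - log r)) = ∫ K e S P₁ P₂`. MS gives
`∫ K ‖P₁‖ ^ 2 ≤ C M ^ (2 h - k) log ^ 2`, `∫ K ‖P₂‖ ^ 2 ≤ C M ^ k log ^ 2`, so (1) replacing `S` by the integral `I`
costs `M / log ^ K * (s ∫ K ‖P₁‖ ^ 2 + ∫ K ‖P₂‖ ^ 2 / s)` with `s = M ^ (k - h)`, i.e. `M ^ (h + 1) log ^ (2 - K)`;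
(2) replacing `P₁, P₂` by integrals costs `M ^ (h + 1) log ^ (2 - K)` in the same way (`err_gen` for `P₁ / M ^ h`,
`P₂ / M ^ k`, `I / M`; `∫ K ‖I‖ ^ 2 ≤ C M ^ 2 / l`); (3) the main term is `≥ c δ (y₂ - y₁) (x₂ - x₁)`. -/
def S_CNT3 : Prop := ∀ h k : ℕ, 1 ≤ k → k < h → ∀ κ : ℝ, κ ≠ 0 → κ * h ≠ k → ∀ R : ℝ, 1 ≤ R → ∃ c : ℝ, 0 < c ∧
  ∀ (δ η η' : ℝ), 0 < δ → δ ≤ 1 → 0 < η → η ≤ 1 → 0 < η' → ∀ᶠ M : ℕ in atTop,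
  ∀ φ y₁ y₂ : ℝ, |φ| ≤ R → (M : ℝ) ^ h / R ≤ y₁ → y₁ + η' * (M : ℝ) ^ h ≤ y₂ → y₂ ≤ R * (M : ℝ) ^ h →
    c * δ * (y₂ - y₁) * (pw h η M).card / Real.log M ^ 2 ≤ (prsH h k κ φ δ y₁ y₂ M (pw h η M)).card

/-- **FM3**: the first moment. -/
def S_FM3 : Prop := ∀ h k : ℕ, 1 ≤ k → k < h → ∀ (κ γ : ℝ) (a b : ℤ) (R : ℝ), κ ≠ 0 → κ * h ≠ k → 0 < γ → 1 ≤ R →
  ∃ c : ℝ, 0 < c ∧ ∃ η₀ : ℝ, 0 < η₀ ∧ η₀ ≤ 1 ∧ ∀ (α₀ η : ℝ), 1 / R ≤ α₀ → α₀ ≤ R → 0 < η → η ≤ η₀ →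
  ∀ᶠ M : ℕ in atTop, c * η * (pw h η M).card / Real.log M ^ 2 ≤
    ∫ α in Set.Icc α₀ (α₀ * (1 + 3 * η)), (Md h k κ γ a b (pw h η M) α : ℝ)

/-- **GEO3**: as GEO2, easier because `M ^ (k - h) → 0`: for a pair `(q, p)` of `prsH` (with
`y₁ = α₀ M ^ h (1 + 1.2 η)`, `y₂ = α₀ M ^ h (1 + 2.8 η)`, `φ = log γ - (1 / 2 - b) / (γ α₀ ^ κ M ^ k)`, `δ` and `η`
small), all `α` with `|α q ^ h + a - p - 1 / 2| ≤ d` satisfy `⌊α q ^ h⌋ + a = p` and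
`|γ α ^ κ q ^ k + b - r - 1 / 2| < 1 / 2`, because `log α = log p - h log q + O(1 / M ^ h)`; these `α` form an
interval of length `2 d / q ^ h ≥ d / M ^ h`; for fixed `q` these intervals are disjoint. -/
def S_GEO3 : Prop := S_CNT3 → S_FM3

/-- **HAT3**: `S_HAT` and the decay of the coefficients (`cf` in `Pool.Agent.D0H96.CC.Hat`: `‖c h‖ = 2 / q * K (h / q)`
and `ξ ^ 2 * K ξ ≤ 1`). -/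
def S_HAT3 : Prop := ∀ q : ℕ, 1 ≤ q → ∃ c : ℤ → ℂ, Summable (fun h => ‖c h‖) ∧ ∑' h, ‖c h‖ ≤ 10 ∧
  c 0 = ((2 / q : ℝ) : ℂ) ∧ (∀ y : ℝ, ((hat q y : ℝ) : ℂ) = ∑' h : ℤ, c h * ex (2 * Real.pi * h * y / q)) ∧
  ∀ h : ℤ, (h : ℝ) ^ 2 * ‖c h‖ ≤ 2 * q

/-- **LO3** (first derivative test instead of OSC): for `q ≠ q'` let `A = q ^ h - q' ^ h`, `B = q ^ k - q' ^ k`,
`F α = u α A + v α ^ κ B`. If `|u| ≥ 1 / Q`, `|v| ≤ Q`, then `|v B| ≤ Q ^ 2 / M * |u A|` (`|A| ≥ M |B|`), so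
`|F'| ≥ |u A| / 2`, `|F''| ≤ |u A|`, and `|∫ ex F| ≤ C / |u A| ≤ C Q / |q - q'|` by partial integration; the same for
`u = 0`. Then as LO2. -/
def S_LO3 : Prop := ∀ h k : ℕ, 1 ≤ k → k < h → ∀ κ R : ℝ, κ ≠ 0 → 1 ≤ R → ∃ C : ℝ, 0 < C ∧
  ∀ (M : ℕ) (G : Finset ℕ), (∀ q ∈ G, M < q ∧ q ≤ 2 * M) → ∀ u v Q : ℝ, 1 ≤ Q → C * Q ^ 2 ≤ M →
    ((1 / Q ≤ |u| ∧ |v| ≤ Q) ∨ (u = 0 ∧ 1 / Q ≤ |v|)) →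
    ∫ α in Set.Icc (1 / R) R, ‖∑ q ∈ G, ex (u * α * (q : ℝ) ^ h + v * α ^ κ * (q : ℝ) ^ k)‖ ≤
      C * Q * (G.card : ℝ) ^ (3 / 4 : ℝ)

/-- **SV3** (from LO3 and HAT3, as `t_SV2`): in the Fourier series of `hat d (α q ^ h + a) * hat e (γ α ^ κ q ^ k + b)`
the frequencies `(h₁, h₂)` with `|h₂| > H = M ^ c'` contribute at most `|G| * 10 * ∑_{|h₂| > H} ‖c h₂‖ ≤ 40 e |G| / H`
(HAT3); for the others use LO3 with `Q = C D ^ 2 H`. -/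
def S_SV3 : Prop := ∀ h k : ℕ, 1 ≤ k → k < h → ∀ (κ γ : ℝ) (a b : ℤ) (R : ℝ), κ ≠ 0 → 0 < γ → 1 ≤ R →
  ∃ C : ℝ, 0 < C ∧ ∃ c : ℝ, 0 < c ∧ c ≤ 1 ∧ ∀ᶠ M : ℕ in atTop, ∀ G : Finset ℕ, (∀ q ∈ G, M < q ∧ q ≤ 2 * M) →
    (M : ℝ) ^ (1 / 2 : ℝ) ≤ G.card → ∀ B : Set ℝ, MeasurableSet B → B ⊆ Set.Icc (1 / R) R →
      ∫ α in B, (Md h k κ γ a b G α : ℝ) ≤
        C * G.card / Real.log M ^ 2 * (volume B).toReal + G.card * (M : ℝ) ^ (-c)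

/-- **CORE3** (from PW, FM3 and SV3). -/
def S_CORE3 : Prop := ∀ h k : ℕ, 1 ≤ k → k < h → ∀ (κ γ : ℝ) (a b : ℤ) (R : ℝ), κ ≠ 0 → κ * h ≠ k → 0 < γ → 1 ≤ R →
  ∃ c : ℝ, 0 < c ∧ ∃ η₀ : ℝ, 0 < η₀ ∧ η₀ ≤ 1 ∧ ∀ (α₀ η : ℝ), 1 / R ≤ α₀ → α₀ ≤ R → 0 < η → η ≤ η₀ →
  ∀ᶠ M : ℕ in atTop, ENNReal.ofReal (c * η) ≤ volume {α : ℝ | α ∈ Set.Icc α₀ (α₀ * (1 + 3 * η)) ∧
      ((pw h η M).card : ℝ) ≤ Md h k κ γ a b (pw h η M) α * Real.log M ^ 3}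

/-- **ONE3** (from PW, CORE3 and DEN, as `t_ONE2`). -/
def S_ONE3 : Prop := ∀ h k : ℕ, 1 ≤ k → k < h → ∀ (κ γ : ℝ) (a b : ℤ), κ ≠ 0 → κ * h ≠ k → 0 < γ →
  ∀ᵐ α : ℝ, 0 < α → Big 6 {q : ℕ | q.Prime ∧ PP (⌊α * (q : ℝ) ^ h⌋ + a) ∧ PP (⌊γ * α ^ κ * (q : ℝ) ^ k⌋ + b)}

/-- **GEN3** (from ONE3, as `t_GEN2`). -/
def S_GEN3 : Prop := ∀ h k : ℕ, 1 ≤ k → k < h → ∀ (κ₁ κ₂ γ₁ γ₂ : ℝ) (a b : ℤ), κ₁ ≠ 0 → κ₂ ≠ 0 →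
  κ₁ * k ≠ κ₂ * h → 0 < γ₁ → 0 < γ₂ → ∀ᵐ α : ℝ, 0 < α →
    Big 6 {q : ℕ | q.Prime ∧ PP (⌊γ₁ * α ^ κ₁ * (q : ℝ) ^ h⌋ + a) ∧ PP (⌊γ₂ * α ^ κ₂ * (q : ℝ) ^ k⌋ + b)}

end Pool.Agent.D0H61.GP
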