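import Pool.Agent.D0H61.CC.Core
import Pool.Agent.D0H61.GP.Stm

/-! CORE3: from the first moment and the upper bound to a set of `α` of positive measure. -/

set_option autoImplicit false

namespace Pool.Agent.D0H61.GP

open Filter Topology MeasureTheory Finset Pool.Agent.D0H61.CC Pool.Agent.D0H61.CP

theorem Md_le (h k : ℕ) (κ γ : ℝ) (a b : ℤ) (G : Finset ℕ) (α : ℝ) : Md h k κ γ a b G α ≤ G.card := by
  classical
  unfold Md
  exact Finset.card_le_card (Finset.filter_subset _ _)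

theorem Md_meas (h k : ℕ) (κ γ : ℝ) (a b : ℤ) (G : Finset ℕ) :
    Measurable (fun α : ℝ => (Md h k κ γ a b G α : ℝ)) := by
  classical
  have e : (fun α : ℝ => (Md h k κ γ a b G α : ℝ)) = fun α : ℝ => ∑ n ∈ G,
      ({α : ℝ | PP (⌊α * (n : ℝ) ^ h⌋ + a) ∧ PP (⌊γ * α ^ κ * (n : ℝ) ^ k⌋ + b)}.indicator
        (fun _ => (1 : ℝ)) α) := by
    funext α
    unfold Md
    rw [Finset.card_filter]
    push_cast
    refine Finset.sum_congr rfl fun n _ => ?_
    simp only [Set.indicator, Set.mem_ofPred_eq]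
  rw [e]
  refine Finset.measurable_sum _ fun n _ => ?_
  refine Measurable.indicator measurable_const ?_
  have h1 : Measurable fun α : ℝ => ⌊α * (n : ℝ) ^ h⌋ := (measurable_id.mul_const _).floor
  have h2 : Measurable fun α : ℝ => ⌊γ * α ^ κ * (n : ℝ) ^ k⌋ :=
    (((measurable_id.pow_const κ).const_mul γ).mul_const _).floor
  have h3 : MeasurableSet {α : ℝ | PP (⌊α * (n : ℝ) ^ h⌋ + a)} :=
    h1 (MeasurableSet.of_discrete (s := {z : ℤ | PP (z + a)}))
  have h4 : MeasurableSet {α : ℝ | PP (⌊γ * α ^ κ * (n : ℝ) ^ k⌋ + b)} :=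
    h2 (MeasurableSet.of_discrete (s := {z : ℤ | PP (z + b)}))
  exact h3.inter h4

/-- integrability on sets of finite measure -/
theorem Md_int (h k : ℕ) (κ γ : ℝ) (a b : ℤ) (G : Finset ℕ) (s : Set ℝ) (hs : volume s ≠ ⊤) :
    IntegrableOn (fun α : ℝ => (Md h k κ γ a b G α : ℝ)) s := by
  refine Measure.integrableOn_of_bounded (M := G.card) hs (Md_meas h k κ γ a b G).aestronglyMeasurable ?_
  refine Filter.Eventually.of_forall fun α => ?_
  rw [Real.norm_of_nonneg (by positivity)]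
  exact_mod_cast Md_le h k κ γ a b G α

theorem pw_le {h : ℕ} (hh : 1 ≤ h) {η : ℝ} (hη : 0 < η) (hη1 : η ≤ 1) {M : ℕ} :
    ∀ q ∈ pw h η M, M < q ∧ q ≤ 2 * M := by
  intro q hq
  unfold pw prs at hq
  rw [Finset.mem_filter, Finset.mem_Icc] at hq
  obtain ⟨⟨h1, h2⟩, h3, h4⟩ := hq
  have hM : M < q := by exact_mod_cast h4
  refine ⟨hM, ?_⟩
  have h5 : (q : ℝ) ≤ (1 + η) ^ (1 / h : ℝ) * M := (Nat.le_floor_iff (by positivity)).1 h2
  have hh0 : (1 : ℝ) ≤ h := by exact_mod_cast hh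
  have h6 : (1 + η) ^ (1 / h : ℝ) ≤ (1 + η) ^ (1 : ℝ) :=
    Real.rpow_le_rpow_of_exponent_le (by linarith) (by rw [div_le_one (by linarith)]; exact hh0)
  rw [Real.rpow_one] at h6
  have h7 : (q : ℝ) ≤ 2 * M := by
    refine h5.trans (mul_le_mul_of_nonneg_right (h6.trans (by linarith)) (by positivity))
  exact_mod_cast h7

theorem pw_card {h : ℕ} (_hh : 1 ≤ h) {η : ℝ} (_hη : 0 < η) (_hη1 : η ≤ 1)
    (hp : ∀ᶠ M : ℕ in atTop, (M : ℝ) ≤ (pw h η M).card * Real.log M ^ 2) :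
    ∀ᶠ M : ℕ in atTop, (M : ℝ) ^ (1 / 2 : ℝ) ≤ (pw h η M).card := by
  filter_upwards [hp, ev_small 2 (1 / 2) 1 (by norm_num) (by norm_num), eventually_ge_atTop 3] with M h1 h2 h3
  have hM : (3 : ℝ) ≤ M := by exact_mod_cast h3
  have hM0 : (0 : ℝ) < M := by linarith
  have hl : 0 < Real.log M := Real.log_pos (by linarith)
  have e : (1 - 1 / 2 : ℝ) = 1 / 2 := by norm_num
  rw [e, one_mul] at h2
  have h4 : (M : ℝ) ^ (1 / 2 : ℝ) * Real.log M ^ 2 ≤ (pw h η M).card * Real.log M ^ 2 := h2.trans h1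
  exact le_of_mul_le_mul_right h4 (by positivity)

theorem t_CORE3 (hPW : S_PW) (hFM : S_FM3) (hSV : S_SV3) : S_CORE3 := by
  intro h k hk hkh κ γ a b R hκ0 hκ1 hγ hR
  have hh : 1 ≤ h := by omega
  obtain ⟨c1, hc1, η0, hη0, hη01, h1⟩ := hFM h k hk hkh κ γ a b R hκ0 hκ1 hγ hR
  obtain ⟨C2, hC2, c2, hc2, hc21, h2⟩ := hSV h k hk hkh κ γ a b (4 * R) hκ0 hγ (by linarith)
  refine ⟨c1 / (4 * C2), by positivity, η0, hη0, hη01, fun α₀ η hα1 hα2 hη hη1 => ?_⟩
  obtain ⟨-, -, p3, -⟩ := hPW h hh η hη (hη1.trans hη01)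
  have p4 := pw_card hh hη (hη1.trans hη01) p3
  have hα0 : 0 < α₀ := lt_of_lt_of_le (by positivity) hα1
  filter_upwards [h1 α₀ η hα1 hα2 hη hη1, h2, ev_log 1, ev_log (12 * R / c1),
    ev_small 2 c2 (c1 * η / 4) hc2 (by positivity), eventually_ge_atTop 1, p4]
    with N g1 g2 g3 g4 g5 g6 g7
  obtain ⟨G, hGd⟩ : ∃ G, G = pw h η N := ⟨_, rfl⟩
  rw [← hGd] at g1 g7 ⊢
  have hGC := g7
  have hN1 : (1 : ℝ) ≤ N := by exact_mod_cast g6
  have hN0 : (0 : ℝ) < N := by linarith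
  obtain ⟨L, hL⟩ : ∃ L, L = Real.log (N : ℝ) := ⟨_, rfl⟩
  have hL1 : 1 ≤ L := by rw [hL]; exact g3
  have hL0 : 0 < L := by linarith
  have hG2 : ∀ n ∈ G, N < n ∧ n ≤ 2 * N := by
    rw [hGd]
    exact pw_le hh hη (hη1.trans hη01)
  have hGp : 0 < (G.card : ℝ) := by
    refine lt_of_lt_of_le ?_ hGC
    positivity
  obtain ⟨J, hJ⟩ : ∃ J, J = Set.Icc α₀ (α₀ * (1 + 3 * η)) := ⟨_, rfl⟩
  obtain ⟨M, hM⟩ : ∃ M : ℝ → ℝ, M = fun α : ℝ => (Md h k κ γ a b G α : ℝ) := ⟨_, rfl⟩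
  obtain ⟨B, hB⟩ : ∃ B, B = {α : ℝ | α ∈ J ∧ (G.card : ℝ) ≤ M α * L ^ 3} := ⟨_, rfl⟩
  have hMm : Measurable M := by rw [hM]; exact Md_meas h k κ γ a b G
  have hM0 : ∀ α, 0 ≤ M α := by intro α; rw [hM]; positivity
  have hBm : MeasurableSet B := by
    rw [hB, hJ]
    exact measurableSet_Icc.inter (measurableSet_le measurable_const (hMm.mul_const _))
  have hJR : J ⊆ Set.Icc (1 / (4 * R)) (4 * R) := by
    rw [hJ]
    intro x hx
    constructor
    · refine le_trans ?_ hx.1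
      refine le_trans ?_ hα1
      apply one_div_le_one_div_of_le (by linarith) (by linarith)
    · refine hx.2.trans ?_
      have : 1 + 3 * η ≤ 4 := by linarith
      nlinarith
  have hBJ : B ⊆ J := by rw [hB]; exact fun x hx => hx.1
  have hJv : volume J ≠ ⊤ := by rw [hJ]; exact measure_Icc_lt_top.ne
  have hBv : volume B ≠ ⊤ := ne_top_of_le_ne_top hJv (measure_mono hBJ)
  have i1 : ∫ α in J, M α = (∫ α in B, M α) + ∫ α in J \ B, M α := by
    have hd : J = B ∪ (J \ B) := (Set.union_sdiff_cancel hBJ).symm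
    have h3 : ∫ α in B ∪ (J \ B), M α = (∫ α in B, M α) + ∫ α in J \ B, M α := by
      refine setIntegral_union Set.disjoint_sdiff_right ((by rw [hJ]; exact measurableSet_Icc : MeasurableSet J).diff hBm) ?_ ?_
      · rw [hM]; exact Md_int h k κ γ a b G _ hBv
      · rw [hM]; exact Md_int h k κ γ a b G _ (ne_top_of_le_ne_top hJv (measure_mono Set.sdiff_subset))
    rwa [← hd] at h3
  have i2 : ∫ α in J \ B, M α ≤ (G.card : ℝ) / L ^ 3 * (3 * η * R) := by
    have h3 : ‖∫ α in J \ B, M α‖ ≤ (G.card : ℝ) / L ^ 3 * (volume (J \ B)).toReal := by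
      refine norm_setIntegral_le_of_norm_le_const (lt_of_le_of_lt (measure_mono Set.sdiff_subset) (lt_top_iff_ne_top.2 hJv)) ?_
      intro x hx
      rw [Real.norm_of_nonneg (hM0 x)]
      have h4 : ¬ ((G.card : ℝ) ≤ M x * L ^ 3) := by
        intro h5
        apply hx.2
        rw [hB]
        exact ⟨hx.1, h5⟩
      push Not at h4
      rw [le_div_iff₀ (by positivity)]
      exact h4.le
    refine (le_abs_self _).trans (h3.trans ?_)
    refine mul_le_mul_of_nonneg_left ?_ (by positivity)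
    have h4 : (volume (J \ B)).toReal ≤ (volume J).toReal :=
      ENNReal.toReal_mono hJv (measure_mono Set.sdiff_subset)
    refine h4.trans ?_
    rw [hJ, Real.volume_Icc, ENNReal.toReal_ofReal (by nlinarith)]
    nlinarith
  have i3 := g2 G hG2 hGC B hBm (hBJ.trans hJR)
  have i4 := g1
  rw [← hL] at g4 g5 i3 i4
  have i3' : ∫ α in B, M α ≤ C2 * G.card / L ^ 2 * (volume B).toReal + G.card * (N : ℝ) ^ (-c2) := by
    rw [hM]; exact i3
  have i4' : c1 * η * G.card / L ^ 2 ≤ ∫ α in J, M α := by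
    rw [hM, hJ]; exact i4
  -- the small terms
  have i5 : (G.card : ℝ) * (N : ℝ) ^ (-c2) ≤ c1 * η * G.card / L ^ 2 / 4 := by
    have e0 : (N : ℝ) ^ (1 - c2) = N * (N : ℝ) ^ (-c2) := by
      rw [sub_eq_add_neg, Real.rpow_add hN0, Real.rpow_one]
    rw [e0] at g5
    have h4 : (N : ℝ) ^ (-c2) * L ^ 2 ≤ c1 * η / 4 := by
      have : (N : ℝ) * ((N : ℝ) ^ (-c2) * L ^ 2) ≤ N * (c1 * η / 4) := by linarith
      exact le_of_mul_le_mul_left this hN0
    rw [div_div, le_div_iff₀ (by positivity)]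
    have h5 : (G.card : ℝ) * ((N : ℝ) ^ (-c2) * L ^ 2) ≤ G.card * (c1 * η / 4) :=
      mul_le_mul_of_nonneg_left h4 hGp.le
    linarith
  have i6 : (G.card : ℝ) / L ^ 3 * (3 * η * R) ≤ c1 * η * G.card / L ^ 2 / 4 := by
    have h3 : 12 * R ≤ c1 * L := by
      rw [div_le_iff₀ hc1] at g4
      linarith
    have e3 : (G.card : ℝ) / L ^ 3 * (3 * η * R) = (G.card * η / (4 * L ^ 3)) * (12 * R) := by
      field_simp
      ring
    have e4 : c1 * η * G.card / L ^ 2 / 4 = (G.card * η / (4 * L ^ 3)) * (c1 * L) := by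
      field_simp
    rw [e3, e4]
    exact mul_le_mul_of_nonneg_left h3 (by positivity)
  have i7 : c1 * η * G.card / L ^ 2 / 2 ≤ C2 * G.card / L ^ 2 * (volume B).toReal := by linarith
  have i8 : c1 / (4 * C2) * η ≤ (volume B).toReal := by
    have h3 : c1 * η * G.card / L ^ 2 / 2 = (G.card / L ^ 2) * (c1 * η / 2) := by ring
    have h4 : C2 * G.card / L ^ 2 * (volume B).toReal = (G.card / L ^ 2) * (C2 * (volume B).toReal) := by ring
    rw [h3, h4] at i7
    have h5 := le_of_mul_le_mul_left i7 (by positivity)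
    have h6 : 0 ≤ (volume B).toReal := ENNReal.toReal_nonneg
    have h7 : c1 * η / 2 / C2 ≤ (volume B).toReal := by
      rw [div_le_iff₀ hC2]
      linarith
    refine le_trans ?_ h7
    rw [div_div, div_mul_eq_mul_div, div_le_div_iff₀ (by positivity) (by positivity)]
    have : 0 ≤ c1 * η * C2 := by positivity
    nlinarith
  have h9 : ENNReal.ofReal (c1 / (4 * C2) * η) ≤ volume B := by
    rw [← ENNReal.ofReal_toReal hBv]
    exact ENNReal.ofReal_le_ofReal i8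
  refine h9.trans (le_of_eq ?_)
  rw [hB, hJ, hM, hL]

end Pool.Agent.D0H61.GP
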